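import Pool.Agent.U252.AZ.Law

/-!
# The order of the zeta function of an arithmetic scheme at `s = 0` from the numbers of points

Let `X` be a scheme of finite type over `ℤ`, for instance regular, flat and projective as in Soulé's
conjecture, and `ζ(X, s) = ∏ (1 - N(x)^{-s})⁻¹` the product over the closed points. Then
`log ζ(X, s) = ∑_q #X(𝔽_q) q^{-s} / m`, the sum over the prime powers `q = p^m`, converges only for
`Re s > dim X`, and if there is a continuation to `s = 0` nothing is known in general about its zeros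
and poles between `0` and `dim X`, so the coefficients at `s = 0` say at first sight nothing about
`ord_{s = 0} ζ(X, s)`. (The naive sum at `s = 0` is the sum of the numbers `#X(𝔽_q) / m`.)

Here it is proved that for every `X` whose zeta function continues meromorphically to the half line
`[0, ∞)`, and for all real `γ > π / 2`, the absolutely convergent sum

`S(T) = ∑_{q = p^m} (#X(𝔽_q) / m) e^{i γ log q / T} / Γ(1 + log q / T)`

satisfies

`S(T) = - n (log T - Λ_γ) + log |l| - i π N + O(1 / T)`

with the order `n` and the leading coefficient `l` of `ζ(X, s)` at `s = 0`, the number `N` of the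
zeros minus the number of the poles on `(0, ∞)`, and
`Λ_γ = ∫_0^∞ (e^{-t} - e^{iγt} / Γ(1 + t)) dt / t`. So Soulé's identity says that `- Re S(T) / log T`
tends to the alternating sum of the dimensions of the motivic cohomology groups. The same is proved
for all real points `a` instead of `0`, with `#X(𝔽_q) q^{-a}` instead of `#X(𝔽_q)`.

The library `Pool.Agent.Q193.Zeta` contains the convergence for some half plane and the relation
between closed points and points over finite fields; the law for the rotated means is an extension of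
that of `Pool.Agent.N41.RM` to functions which are meromorphic near the half line only.
-/

set_option autoImplicit false

namespace Pool.Agent.Results.MP_f3836a_nt.PointCountLaw

open AlgebraicGeometry CategoryTheory Filter Topology
open Pool.Agent.U252.AZ (pointCount zetaProduct)

/-- The term of the prime power `q = p ^ (n + 1)`, `x = (p, n)`:
`#X(𝔽_q) / (n + 1) · q^{-a} · e^{iγ log q / T} / Γ(1 + log q / T)`, with `log q = (n + 1) log p`. -/
noncomputable def term (X : Scheme.{0}) (a γ T : ℝ) (x : Nat.Primes × ℕ) : ℂ :=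
  (((pointCount X x : ℝ) / (x.2 + 1) * Real.exp (-(a * ((x.2 + 1) * Real.log x.1))) *
      (Real.Gamma (1 + (x.2 + 1) * Real.log x.1 / T))⁻¹ : ℝ) : ℂ) *
    Complex.exp ((γ * ((x.2 + 1) * Real.log x.1 / T) : ℝ) * Complex.I)

/-- The sum `S(T)` over all prime powers. -/
noncomputable def sum (X : Scheme.{0}) (a γ T : ℝ) : ℂ := ∑' x : Nat.Primes × ℕ, term X a γ T x

/-- `Λ_γ = ∫_0^∞ (e^{-t} - e^{iγt} / Γ(1 + t)) dt / t`. -/
noncomputable def Lambda (γ : ℝ) : ℂ := ∫ t in Set.Ioi (0 : ℝ),
  (Complex.exp (-(t : ℂ)) - Complex.exp ((γ * t : ℝ) * Complex.I) * ((Real.Gamma (1 + t))⁻¹ : ℝ)) / t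

/-- The number of the zeros minus the number of the poles of `F` on the half line `(a, ∞)`, with
multiplicity. -/
noncomputable def excess (F : ℂ → ℂ) (a : ℝ) : ℤ :=
  ∑ᶠ x ∈ Set.Ioi (0 : ℝ), (meromorphicOrderAt F ((a + x : ℝ) : ℂ)).untop₀

/-- **Theorem.** Let `X` be a scheme of finite type over `ℤ`, `a` a real number and `F` a function which
is meromorphic at all points of the half line `[a, ∞)` and equal to the zeta function of `X` in some
half plane. Let `γ > π / 2`. Then `S(T)` converges absolutely for all `T > 0`. Let `n` and `l` be the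
order and the leading coefficient of `F` at `a`, and `N` the number of the zeros minus the number of the
poles of `F` on `(a, ∞)`. Then `S(T) = - n (log T - Λ_γ) + log |l| - i π N + O(1 / T)`. In particular
`F` has the order `r` at `a` (for `a = 0`: Soulé's identity, if `r` is the alternating sum of the
dimensions of the motivic cohomology groups) if and only if `- Re S(T) / log T` tends to `r`, and then
`Im S(T) + Im Λ_γ Re S(T) / log T` tends to `- π N`. -/
theorem result (X : Scheme.{0}) (f : X ⟶ Spec (CommRingCat.of ℤ)) [LocallyOfFiniteType f]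
    [QuasiCompact f] (a : ℝ) (F : ℂ → ℂ) (B : ℝ) (hF : ∀ s : ℂ, B < s.re → F s = zetaProduct X s)
    (hmer : ∀ x : ℝ, a ≤ x → MeromorphicAt F (x : ℂ)) (γ : ℝ) (hγ : Real.pi / 2 < γ) :
    (∀ T : ℝ, 0 < T → Summable fun x : Nat.Primes × ℕ => ‖term X a γ T x‖) ∧
    (∃ (n : ℤ) (l : ℂ), meromorphicOrderAt F (a : ℂ) = n ∧
      meromorphicTrailingCoeffAt F (a : ℂ) = l ∧ l ≠ 0 ∧
      (fun T : ℝ => sum X a γ T - (-n * (Real.log T - Lambda γ) + Real.log ‖l‖ -
        Real.pi * excess F a * Complex.I)) =O[atTop] (fun T : ℝ => 1 / T)) ∧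
    (∀ r : ℤ, meromorphicOrderAt F (a : ℂ) = r ↔
      Tendsto (fun T : ℝ => -((sum X a γ T).re / Real.log T)) atTop (𝓝 r)) ∧
    Tendsto (fun T : ℝ => (sum X a γ T).im +
      (Lambda γ).im * ((sum X a γ T).re / Real.log T)) atTop (𝓝 (-(Real.pi * excess F a))) := by
  obtain ⟨A, D⟩ := Pool.Agent.U252.AZ.zeta_cds f hF
  obtain ⟨h1, n, l, h2, h3, h4, h5⟩ := Pool.Agent.U252.AZ.q_law
    (c := fun x => (pointCount X x : ℝ)) D hmer hγ
  have hex : Pool.Agent.U252.RM.rayZ F (a : ℂ) = excess F a := by
    unfold Pool.Agent.U252.RM.rayZ excess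
    refine finsum_congr fun x => finsum_congr fun _ => ?_
    rw [Complex.ofReal_add]
  have hlaw : (fun T : ℝ => sum X a γ T - (((-n : ℤ) : ℝ) * (Real.log T - Lambda γ) +
      (Real.log ‖l‖ - Real.pi * excess F a * Complex.I))) =O[atTop] (fun T : ℝ => 1 / T) := by
    refine h5.congr_left fun T => ?_
    rw [hex]
    have e1 : sum X a γ T =
        ∑' x, Pool.Agent.U252.AZ.qTerm (fun x => (pointCount X x : ℝ)) a γ T x := rfl
    have e2 : Lambda γ = Pool.Agent.W187.UR.Lam γ := rfl
    rw [e1, e2]
    push_cast
    ring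
  have hlaw' : (fun T : ℝ => sum X a γ T - (((-n : ℤ) : ℂ) * (Real.log T - Lambda γ) +
      (Real.log ‖l‖ - Real.pi * excess F a * Complex.I))) =O[atTop] (fun T : ℝ => 1 / T) := by
    refine hlaw.congr_left fun T => ?_
    push_cast
    ring
  have hre := Pool.Agent.N41.RM.re_of_law hlaw'
  have hre' : Tendsto (fun T : ℝ => -((sum X a γ T).re / Real.log T)) atTop (𝓝 (n : ℝ)) := by
    have := hre.neg
    rwa [Int.cast_neg, neg_neg] at this
  refine ⟨h1, ⟨n, l, h2, h3, h4, ?_⟩, fun r => ⟨fun h => ?_, fun h => ?_⟩, ?_⟩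
  · refine hlaw.congr_left fun T => ?_
    push_cast
    ring
  · rw [h2] at h
    have : n = r := by exact_mod_cast h
    rwa [this] at hre'
  · have := tendsto_nhds_unique hre' h
    have h6 : n = r := by exact_mod_cast this
    rw [h2, h6]
  · have h6 := Pool.Agent.N41.RM.im_of_law hlaw'
    have h7 : ((Real.log ‖l‖ : ℂ) - Real.pi * excess F a * Complex.I).im =
        -(Real.pi * excess F a) := by
      have h8 : ((Real.log ‖l‖ : ℂ) - Real.pi * excess F a * Complex.I) =
          ((Real.log ‖l‖ : ℝ) : ℂ) - ((Real.pi * excess F a : ℝ) : ℂ) * Complex.I := by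
        push_cast; ring
      rw [h8, Complex.sub_im, Complex.ofReal_im, Complex.mul_I_im, Complex.ofReal_re, zero_sub]
    rw [h7] at h6
    exact h6

end Pool.Agent.Results.MP_f3836a_nt.PointCountLaw
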