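import Pool.Agent.U738.SO.Main

/-!
# Soulé's conjecture on the order of zeta: two-term equations and actions of complexity one

Let `ζ(X, s) = ∏ (1 - N(x)^{-s})⁻¹` be the zeta function of a separated scheme of finite type over `ℤ`
(`zetaProduct`), and let `B n i X` be groups with the known properties `IsHomology` of the rational motivic
Borel-Moore homology `CH_n(X, i) ⊗ ℚ = K'_i(X)^{(n)}`: localization sequences, homotopy invariance (with the
shift of the weight), and Soulé's identity for the affine schemes of dimension at most one. For regular
connected `X` of dimension `d` the groups of weight `0` are those of Q1, `B 0 i X = H^{2d-i}(X, ℚ(d))`.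

`Soule B X` says, for all integers `n ≤ 0`: the spaces `B n i X` have finite dimension and almost all of them
are zero, `ζ(X, s)` has a meromorphic continuation to `ℂ`, and
`ord_{s = n} ζ(X, s) = ∑ (-1)^(i + 1) dim B n i X`. (For `n = 0` these are the assumptions (i), (ii) and the
conclusion of Q1.)

For every `N` the following are equivalent:

1. `N ≤ 1`, or `Soule` is true for all affine schemes of finite type over `ℤ` of dimension at most `N`;
2. `Soule` for all schemes `X = Spec S[x_1, …, x_m] / (G)` of any dimension, where `dim S ≤ N` and `G` is any
   set of polynomials with at most two terms, with arbitrary coefficients in `S`;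
3. `Soule` for all schemes `X = Spec A`, of any dimension and with any singularities, where `A` has a grading
   by a commutative group (an action of a diagonalizable group) of complexity at most `N`;
4. `Soule` for all schemes in the smallest class `Built N` which contains all these schemes and is closed
   under cutting and pasting and under products of affine schemes with the affine line.

So all of them are true for `N = 1`: Soulé's identity holds for the regular, flat and projective schemes
which can be cut into, or obtained by cutting from, schemes given by binomials over arithmetic curves or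
with torus actions of complexity one. For `N = 2` everything is reduced to arithmetic surfaces, surfaces
over finite fields, and their singular and open versions.

Proof: the class is closed under products with `𝔾_m` because the weight is shifted by homotopy invariance
and all `n ≤ 0` are treated at the same time; the order of the zeta function and the alternating sum are both
additive (the former from the numbers of points over finite fields and the uniqueness of the continuation).
-/

set_option autoImplicit false

open CategoryTheory AlgebraicGeometry Pool.Agent.Y116.UV Pool.Agent.U738.BN Pool.Agent.U738.CX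
  Pool.Agent.U738.SO

namespace Pool.Agent.Results.MP_f3836a_nt.TwoTermsAndComplexity

universe w

lemma of_terms {B : ℤ → ℤ → Sch ℤ → ModuleCat.{w} ℚ} (h : IsHomology B) (N : WithBot ℕ∞)
    (h1 : ForTerms N 2 (Soule B)) : ForDimension N (Soule B) := by
  intro A _ _ _ hA
  have h2 := h1 A hA 0 ∅ (by simp)
  have e : (MvPolynomial (Fin 0) A ⧸ Ideal.span (∅ : Set (MvPolynomial (Fin 0) A))) ≃ₐ[ℤ] A :=
    ((AlgEquiv.quotientBot ℤ (MvPolynomial (Fin 0) A)).symm.trans
      (Ideal.quotientEquivAlgOfEq ℤ (Ideal.span_empty).symm)).symm.trans
      ((MvPolynomial.isEmptyAlgEquiv A (Fin 0)).restrictScalars ℤ)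
  exact soule_iso h (ft_aff True) ⟨affIso e.symm⟩ h2

lemma of_complexity {B : ℤ → ℤ → Sch ℤ → ModuleCat.{w} ℚ} (h : IsHomology B) (N : WithBot ℕ∞)
    (h1 : ForComplexity N (Soule B)) : ForDimension N (Soule B) := by
  have hb : ForDimension (⊥ : WithBot ℕ∞) (Soule B) := fun A _ _ _ hA => h.curve A (hA.trans bot_le)
  have hP := posD h hb
  exact (complexity_iff hP.iso hP.total hP.times).mpr h1

/-- **Theorem.** Soulé's identity (all integers `n ≤ 0`) in dimension at most `N` is equivalent to the
identity for two-term equations over rings of dimension at most `N`, for gradings of complexity at most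
`N`, and for all schemes built from these; all this is true for `N ≤ 1`. -/
theorem result (B : ℤ → ℤ → Sch ℤ → ModuleCat.{w} ℚ) (h : IsHomology B) (N : ℕ) :
    List.TFAE [
      N ≤ 1 ∨ ForDimension N (Soule B),
      ForTerms N 2 (Soule B),
      ForComplexity N (Soule B),
      ∀ X : Sch ℤ, Built N X → Soule B X] := by
  have h0 : (N ≤ 1 ∨ ForDimension N (Soule B)) → ForDimension N (Soule B) := by
    rintro (hN | hN)
    · intro A _ _ _ hA
      exact h.curve A (hA.trans (by exact_mod_cast hN))
    · exact hN
  tfae_have 1 → 4 := fun h1 X hX => built h (h0 h1) hX
  tfae_have 4 → 2 := fun h4 S _ _ _ hS m G hG => h4 _ (Built.terms S m G hS hG)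
  tfae_have 4 → 3 := fun h4 A _ _ _ Γ _ _ 𝒜 _ hd => h4 _ (Built.graded A Γ 𝒜 hd)
  tfae_have 2 → 1 := fun h2 => Or.inr (of_terms h N h2)
  tfae_have 3 → 1 := fun h3 => Or.inr (of_complexity h N h3)
  tfae_finish

end Pool.Agent.Results.MP_f3836a_nt.TwoTermsAndComplexity
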