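import Pool.Agent.U554.TZ.Clo
import Pool.Agent.U554.TU.App
import Pool.Agent.U738.ZO.Times

/-!
# Orders of zeta functions and bilinear systems over `ℤ` with few variables in one block

For a scheme `X` of finite type over `ℤ` let `eulerProduct X` be the Euler product over the closed points of `X`, and
let `A m k X = CH_m(X, k) ⊗ ℚ` (cycles of dimension `m + k` on `X × Δ^k`; for regular connected `X` of dimension `d` this
is `H^{2(d - m) - k}(X, ℚ(d - m))`). The hypothesis `IsChow A` (starting library) collects known properties of these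
groups (Bloch, Levine). `Orders A X` is: the zeta function of `X` extends to a meromorphic function on `ℂ`, for all
integers `m` the spaces `A m k X`, `k ∈ ℤ`, are finite-dimensional and almost all zero, and
`ord_{s = m} ζ(X, s) = ∑ (-1)^(k + 1) dim A m k X`. For `m = 0` this is the identity of Q1.

`bilS T` is the closed subscheme of the affine space over `ℤ` given by the `a₁` bilinear equations
`∑ T_{i j l} y_j z_l = 0` in the `a₂` variables `y` and the `a₃` variables `z`. `ClosedIn P n`: the property `P` holds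
for all closed subschemes of the affine space of dimension `n` over `ℤ`.
-/

set_option autoImplicit false

open CategoryTheory AlgebraicGeometry MvPolynomial Pool.Agent.Y116.UV Pool.Agent.Q282.UZ
open Pool.Agent.U554.TD (One)
open Pool.Agent.U554.TW (bilS)
open Pool.Agent.U554.TZ (Fam ClosedIn)

universe w

namespace Pool.Agent.Results.MP_f3836a_nt.TwoVariables

/-- The Euler product `∏ (1 - N(x)^{-s})⁻¹` over the closed points `x` of `X`. -/
noncomputable def eulerProduct (X : Scheme.{0}) (s : ℂ) : ℂ :=
  ∏' x : {x : X // IsClosed ({x} : Set X)}, (1 - ((Nat.card (X.residueField x.1) : ℂ) ^ (-s)))⁻¹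

/-- **Continuation, finiteness and orders at all integers for `X`**: there is a function `F`, meromorphic on `ℂ`,
which is equal to the Euler product of `X` in some half-plane; for all integers `m` the spaces `A m k X`, `k ∈ ℤ`, are
finite-dimensional and almost all zero (`FinRank`), and the order of `F` at `s = m` is
`-∑ (-1)^k dim A m k X`. -/
def Orders (A : ℤ → ℤ → Sch ℤ → ModuleCat.{w} ℚ) (X : Sch ℤ) : Prop :=
  ∃ F : ℂ → ℂ, MeromorphicOn F Set.univ ∧
    (∃ σ : ℝ, ∀ s : ℂ, σ < s.re → F s = eulerProduct X.left s) ∧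
    ∀ m : ℤ, FinRank (A m) X ∧ meromorphicOrderAt F (m : ℂ) =
      ((-∑ᶠ k : ℤ, (k.negOnePow : ℤ) * (Module.finrank ℚ (A m k X) : ℤ) : ℤ) : WithTop ℤ)

lemma fam {A : ℤ → ℤ → Sch ℤ → ModuleCat.{w} ℚ} (hA : IsChow A)
    (hd : ∀ (B : Type) [CommRing B] [Algebra ℤ B] [Algebra.FiniteType ℤ B], ringKrullDim B ≤ 1 →
      Orders A (aff ℤ B)) : Fam False (Orders A) where
  iso := (clo_formula hA).iso
  total := (clo_formula hA).total
  opened := (clo_formula hA).opened
  empty := by
    intro B _ _ hB
    have hft : Algebra.FiniteType ℤ B := by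
      have : Module.Finite ℤ B := inferInstance
      infer_instance
    refine hd B ?_
    rw [ringKrullDim_eq_bot_of_subsingleton]
    exact bot_le
  times B _ _ _ h := Pool.Agent.U738.ZO.formula_times hA B h
  torus := (clo_formula hA).torus

/-- The closed subschemes of the affine line over `ℤ`. -/
lemma line {A : ℤ → ℤ → Sch ℤ → ModuleCat.{w} ℚ} (hA : IsChow A)
    (hd : ∀ (B : Type) [CommRing B] [Algebra ℤ B] [Algebra.FiniteType ℤ B], ringKrullDim B ≤ 1 →
      Orders A (aff ℤ B)) : ClosedIn (Orders A) 1 := by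
  have hP := fam hA hd
  have hZ : ringKrullDim ℤ = 1 := IsPrincipalIdealRing.ringKrullDim_eq_one ℤ Int.not_isField
  intro I
  by_cases hI : I = ⊥
  · subst hI
    refine Pool.Agent.U554.TD.one_alg hP.toOne (AlgEquiv.quotientBot ℤ _).symm (hP.poly ℤ 1 (hd ℤ hZ.le))
  · obtain ⟨f, hf, hf0⟩ := Submodule.exists_mem_ne_zero_of_ne_bot hI
    refine hd _ ?_
    have h1 : ringKrullDim (MvPolynomial (Fin 1) ℤ ⧸ I) ≤ ringKrullDim (MvPolynomial (Fin 1) ℤ ⧸ Ideal.span {f}) :=
      ringKrullDim_le_of_surjective (Ideal.Quotient.factor (show Ideal.span {f} ≤ I by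
        rw [Ideal.span_singleton_le_iff_mem]
        exact hf)) (Ideal.Quotient.factor_surjective _)
    have h2 : ringKrullDim (MvPolynomial (Fin 1) ℤ ⧸ Ideal.span {f}) + 1 ≤ ringKrullDim (MvPolynomial (Fin 1) ℤ) :=
      ringKrullDim_quotient_succ_le_of_nonZeroDivisor (mem_nonZeroDivisors_of_ne_zero hf0)
    rw [MvPolynomial.ringKrullDim_of_isNoetherianRing, hZ, Nat.card_fin] at h2
    refine h1.trans ?_
    have h3 : ringKrullDim (MvPolynomial (Fin 1) ℤ ⧸ Ideal.span {f}) + 1 ≤ 1 + 1 := by exact_mod_cast h2
    revert h3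
    generalize ringKrullDim (MvPolynomial (Fin 1) ℤ ⧸ Ideal.span {f}) = a
    intro h3
    induction a using WithBot.recBotCoe with
    | bot => exact bot_le
    | coe a =>
      have h4 : a + 1 ≤ 1 + 1 := WithBot.coe_le_coe.mp h3
      have h5 : a ≤ 1 := (ENat.add_le_add_iff_right ENat.one_ne_top).mp h4
      exact_mod_cast h5

/-- **Orders of zeta functions and bilinear systems.** Let `A m k X` have the properties `IsChow` of the spaces
`CH_m(X, k) ⊗ ℚ`, and let `Orders` be true for the rings of finite type over `ℤ` of dimension at most one (this is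
known: Hecke, Weil, Borel, Harder).

(A) `Orders` is true for all systems of bilinear equations over `ℤ` with at most `2` variables `y` (any number of
variables `z`, of equations, any coefficients).

(B) For every `n` the following are equivalent: `Orders` is true for all closed subschemes of the affine space of
dimension `n` over `ℤ`; `Orders` is true for all systems of bilinear equations over `ℤ` with at most `n + 1`
variables `y`.

(C) If these are true for all `n`, then `Orders` is true for all schemes of finite type over `ℤ`. -/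
theorem result (A : ℤ → ℤ → Sch ℤ → ModuleCat.{w} ℚ) (hA : IsChow A)
    (hd : ∀ (B : Type) [CommRing B] [Algebra ℤ B] [Algebra.FiniteType ℤ B], ringKrullDim B ≤ 1 →
      Orders A (aff ℤ B)) :
    (∀ (a₁ a₂ a₃ : ℕ) (T : Fin a₁ → Fin a₂ → Fin a₃ → ℤ), a₂ ≤ 2 → Orders A (bilS T)) ∧
    (∀ n : ℕ, ClosedIn (Orders A) n ↔
      ∀ (a₁ a₂ a₃ : ℕ) (T : Fin a₁ → Fin a₂ → Fin a₃ → ℤ), a₂ ≤ n + 1 → Orders A (bilS T)) ∧
    ((∀ n : ℕ, ClosedIn (Orders A) n) → ∀ X : Sch ℤ, FT False X → Orders A X) := by
  have hP := fam hA hd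
  refine ⟨fun a₁ a₂ a₃ T ha => hP.bil_of_closed (line hA hd) ha T,
    fun n => ⟨fun h a₁ a₂ a₃ T ha => hP.bil_of_closed h ha T, fun h => hP.closed_of_bil h⟩, ?_⟩
  intro h X hX
  refine of_affine' (P := Orders A) (sep := False) hP.iso hP.total ?_ X hX
  intro B _ _ _
  obtain ⟨n, φ, hφ⟩ := Algebra.FiniteType.iff_quotient_mvPolynomial''.mp ‹Algebra.FiniteType ℤ B›
  exact Pool.Agent.U554.TD.one_surj hP.toOne (h n) φ hφ

end Pool.Agent.Results.MP_f3836a_nt.TwoVariables
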