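import Mathlib

/-!
# Soulé's conjecture: the point `s = 0` implies all negative integers, and finite characteristic

For a regular connected projective scheme `X` over `ℤ`, of dimension `d`, and `n ≥ 0` the
identity `I(X, n)` says `ord_{s=-n} ζ(X, s) = ∑_i (-1)^(i+1) dim H^(2(d+n)-i)(X, ℚ(d+n))`. Q1 is
`I(X, 0)` for flat `X`. By the projective bundle formula the defect of `I(X × ℙᵐ, n)` is the sum
of the defects of `I(X, n), …, I(X, n+m)`. By the blow-up formula for `Z ⊆ ℙᴺ` over `ℤ`, which may
be of finite characteristic, the defects of `I(Z, 1), …, I(Z, c)` have sum zero for all large `c` if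
Q1 holds, and the same is true for all `Z × ℙᵐ`. This determines the defects of all
`I(Z, n)`, `n ≥ 1`: they are zero.
-/

set_option autoImplicit false

namespace Pool.Agent.Results.MP_f3836a_nt.ZeroImpliesNegative

open Finset

/-- `Sch`: regular connected projective schemes `X` over `ℤ` such that at each integer `-n ≤ 0` the
zeta function is meromorphic and the groups `H^j(X, ℚ(d+n))`, `d = dim X`, are finite
dimensional and almost all zero; `Flat X`: `X` is flat over `ℤ`; `order X n`: the order of
`ζ(X, s)` at `s = -n`; `rank X n`: `∑_i (-1)^(i+1) dim H^(2(d+n)-i)(X, ℚ(d+n))`; `proj X m`: the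
product of `X` and `ℙᵐ`. -/
structure Schemes where
  Sch : Type
  Flat : Sch → Prop
  order : Sch → ℕ → ℤ
  rank : Sch → ℕ → ℤ
  proj : Sch → ℕ → Sch

/-- The facts used: the formulas for `X × ℙᵐ`, and for the blow-ups `Y` of `W = ℙᴺ` over `ℤ` in `Z`, of
codimension `c + 1`, for all large `N`. -/
structure Facts (S : Schemes) : Prop where
  flat_proj : ∀ X m, S.Flat X → S.Flat (S.proj X m)
  order_proj : ∀ X m n, S.order (S.proj X m) n = ∑ j ∈ range (m + 1), S.order X (n + j)
  rank_proj : ∀ X m n, S.rank (S.proj X m) n = ∑ j ∈ range (m + 1), S.rank X (n + j)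
  blowUp : ∀ Z, ∃ c₀ : ℕ, ∀ c, c₀ ≤ c → ∃ W Y, S.Flat W ∧ S.Flat Y ∧
    S.order Y 0 = S.order W 0 + ∑ j ∈ range c, S.order Z (j + 1) ∧
    S.rank Y 0 = S.rank W 0 + ∑ j ∈ range c, S.rank Z (j + 1)

/-- The defect of the identity at `s = -n`. -/
def defect (S : Schemes) (X : S.Sch) (n : ℕ) : ℤ := S.order X n - S.rank X n

theorem defect_proj {S : Schemes} (h : Facts S) (X : S.Sch) (m n : ℕ) :
    defect S (S.proj X m) n = ∑ j ∈ range (m + 1), defect S X (n + j) := by
  unfold defect
  rw [h.order_proj, h.rank_proj, sum_sub_distrib]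

/-- For all large `c` the first `c` defects at negative integers have sum zero. -/
theorem defect_sum {S : Schemes} (h : Facts S) (hQ : ∀ X, S.Flat X → S.order X 0 = S.rank X 0)
    (Z : S.Sch) : ∃ c₀ : ℕ, ∀ c, c₀ ≤ c → ∑ j ∈ range c, defect S Z (j + 1) = 0 := by
  obtain ⟨c₀, hc⟩ := h.blowUp Z
  refine ⟨c₀, fun c hcc => ?_⟩
  obtain ⟨W, Y, hW, hY, h1, h2⟩ := hc c hcc
  have h3 := hQ W hW
  have h4 := hQ Y hY
  unfold defect
  rw [sum_sub_distrib]
  linarith

/-- Soulé's identity at `s = 0` for all flat regular projective schemes is equivalent to the identity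
at `s = -n` for all flat regular projective schemes and all `n ≥ 0`, and for all regular projective
schemes over `ℤ` (also of finite characteristic) and all `n ≥ 1`. -/
theorem result (S : Schemes) (h : Facts S) :
    (∀ X, S.Flat X → S.order X 0 = S.rank X 0) ↔
    (∀ X n, S.Flat X ∨ 1 ≤ n → S.order X n = S.rank X n) := by
  constructor
  · intro hQ
    -- the tails of the series of the defects
    have key : ∀ (Z : S.Sch) (r : ℕ), ∃ c₁ : ℕ, ∀ c, c₁ ≤ c →
        ∑ j ∈ range c, defect S Z (j + 1 + r) = 0 := by
      intro Z r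
      induction r using Nat.strong_induction_on with
      | _ r ih =>
        -- the sums for `Z × ℙʳ`
        obtain ⟨a, ha⟩ := defect_sum h hQ (S.proj Z r)
        choose! b hb using ih
        refine ⟨max a ((range r).sup b), fun c hc => ?_⟩
        have h1 := ha c ((le_max_left _ _).trans hc)
        simp only [defect_proj h] at h1
        rw [sum_comm, sum_range_succ] at h1
        have h2 : ∑ k ∈ range r, ∑ j ∈ range c, defect S Z (j + 1 + k) = 0 := by
          refine sum_eq_zero fun k hk => ?_
          refine hb k (mem_range.1 hk) c ?_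
          exact (le_sup hk).trans ((le_max_right _ _).trans hc)
        rw [h2, zero_add] at h1
        exact h1
    have neg : ∀ (Z : S.Sch) (n : ℕ), defect S Z (n + 1) = 0 := by
      intro Z n
      obtain ⟨a, ha⟩ := key Z n
      obtain ⟨b, hb⟩ := key Z (n + 1)
      have h1 := ha (max a b + 1) ((le_max_left _ _).trans (Nat.le_succ _))
      have h2 := hb (max a b) (le_max_right _ _)
      rw [sum_range_succ'] at h1
      have h3 : ∑ k ∈ range (max a b), defect S Z (k + 1 + 1 + n) = 0 := by
        rw [← h2]
        refine sum_congr rfl fun k _ => ?_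
        congr 1
        ring
      rw [h3, zero_add] at h1
      have h4 : 0 + 1 + n = n + 1 := by ring
      rw [h4] at h1
      exact h1
    intro X n hn
    rcases Nat.eq_zero_or_pos n with h0 | h0
    · subst h0
      rcases hn with hX | h1
      · exact hQ X hX
      · omega
    · obtain ⟨m, rfl⟩ : ∃ m, n = m + 1 := ⟨n - 1, by omega⟩
      have := neg X m
      unfold defect at this
      linarith
  · intro hall X hX
    exact hall X 0 (Or.inl hX)

end Pool.Agent.Results.MP_f3836a_nt.ZeroImpliesNegative
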